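import Pool.Agent.H238R2.Cor.Main

set_option autoImplicit false

namespace Pool.Agent.Results.MP_db4732_co.BoundedVC

open Pool.Agent.H238R2.Cor Finset

/-- **Power-saving bounds for corner-free sets of bounded VC dimension.**
(1) For every `d` there is `C > 0` such that for every `n` and every corner-free `A ⊆ (F₂ⁿ)²` whose
rows `{y : (x,y) ∈ A}` or whose columns or whose antidiagonals `{y : (s-y,y) ∈ A}` form a family of VC
dimension `≤ d`, `|A| ≤ C 4^{(1-c)n}` with `c = 1/(4d+6)`.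
(2) The same in every finite abelian group `G`, `N = |G|`: `|A| ≤ C N^{2-1/(2d+3)}`.
(3) Without any VC assumption: if every set of rows of the corner-free set `A` that pairwise differ in
more than `N/E` places has at most `M` elements, then `E|A|² ≤ 24N⁴` or `|A|² ≤ 8MN³`. -/
theorem result :
    (∀ d : ℕ, ∃ C : ℝ, 0 < C ∧ ∀ (n : ℕ) (A : Finset ((Fin n → ZMod 2) × (Fin n → ZMod 2))),
      (∀ x y z : Fin n → ZMod 2, (x, y) ∈ A → (x, y + z) ∈ A → (x + z, y) ∈ A → z = 0) →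
      (VCdim (fun x y => (x, y) ∈ A) d ∨ VCdim (fun y x => (x, y) ∈ A) d ∨
        VCdim (fun s y : Fin n → ZMod 2 => (s - y, y) ∈ A) d) →
      (A.card : ℝ) ≤ C * (4 : ℝ) ^ ((1 - 1 / (4 * d + 6) : ℝ) * n)) ∧
    (∀ d : ℕ, ∃ C : ℝ, 0 < C ∧ ∀ (G : Type) [AddCommGroup G] [Fintype G] [DecidableEq G]
      (A : Finset (G × G)),
      (∀ x y z : G, (x, y) ∈ A → (x, y + z) ∈ A → (x + z, y) ∈ A → z = 0) →
      (VCdim (fun x y => (x, y) ∈ A) d ∨ VCdim (fun y x => (x, y) ∈ A) d ∨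
        VCdim (fun s y : G => (s - y, y) ∈ A) d) →
      (A.card : ℝ) ≤ C * (Fintype.card G : ℝ) ^ (2 - 1 / (2 * d + 3) : ℝ)) ∧
    (∀ (G : Type) [AddCommGroup G] [Fintype G] [DecidableEq G] (A : Finset (G × G)),
      (∀ x y z : G, (x, y) ∈ A → (x, y + z) ∈ A → (x + z, y) ∈ A → z = 0) →
      ∀ E M : ℕ,
        (∀ P : Finset G, (∀ x ∈ P, ∀ x' ∈ P, x ≠ x' → Fintype.card G <
          E * (univ.filter (fun y => ¬ ((x, y) ∈ A ↔ (x', y) ∈ A))).card) → P.card ≤ M) →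
        E * A.card ^ 2 ≤ 24 * Fintype.card G ^ 4 ∨ A.card ^ 2 ≤ 8 * M * Fintype.card G ^ 3) := by
  refine ⟨fun d => ?_, fun d => final d, fun G _ _ _ A hA E M hM => main_ineq A hA E M hM⟩
  obtain ⟨C, hC, h⟩ := final d
  refine ⟨C, hC, fun n A hA hVC => ?_⟩
  have h1 := h (Fin n → ZMod 2) A hA hVC
  have h2 : (Fintype.card (Fin n → ZMod 2) : ℝ) ^ (2 - 1 / (2 * d + 3) : ℝ) =
      (4 : ℝ) ^ ((1 - 1 / (4 * d + 6) : ℝ) * n) := by
    have e : (Fintype.card (Fin n → ZMod 2) : ℝ) = (2 : ℝ) ^ (n : ℝ) := by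
      rw [Fintype.card_fun, ZMod.card, Fintype.card_fin, Real.rpow_natCast]
      push_cast
      rfl
    have e4 : (4 : ℝ) = (2 : ℝ) ^ (2 : ℝ) := by norm_num
    rw [e, e4, ← Real.rpow_mul (by norm_num), ← Real.rpow_mul (by norm_num)]
    congr 1
    have h4 : (2 * (d : ℝ) + 3) ≠ 0 := by positivity
    have h5 : (4 * (d : ℝ) + 6) ≠ 0 := by positivity
    field_simp
    ring
  rw [h2] at h1
  exact h1

end Pool.Agent.Results.MP_db4732_co.BoundedVC
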