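import Pool.Agent.H523R2.Corner.Data4

/-!
# Large corner-free sets in `(F_2^n)^2`

For all large `n` there are corner-free subsets of `F_2^n × F_2^n` with at least
`4^{0.895 n} = 2^{1.79 n}` (`> 3.458^n`) elements.  Hence a power-saving bound
`|A| ≤ C 4^{(1-c)n}` for corner-free sets can only hold with `c ≤ 0.105`.
-/

namespace Pool.Agent.Results.MP_db4732_co.CornerFreeLower

open Pool.Agent.H523R2.Corner

/-- `A ⊆ F_2^n × F_2^n` contains no nontrivial corner `(x,y), (x,y+z), (x+z,y)`, `z ≠ 0`. -/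
def NoCorner {n : ℕ} (A : Finset ((Fin n → ZMod 2) × (Fin n → ZMod 2))) : Prop :=
  ∀ x y z : Fin n → ZMod 2, z ≠ 0 → ¬ ((x, y) ∈ A ∧ (x, y + z) ∈ A ∧ (x + z, y) ∈ A)

lemma lower : ∃ n0 : ℕ, ∀ n : ℕ, n0 ≤ n →
    ∃ A : Finset ((Fin n → ZMod 2) × (Fin n → ZMod 2)),
      NoCorner A ∧ (2 : ℝ) ^ ((1.79 : ℝ) * n) ≤ A.card := by
  obtain ⟨n0, h⟩ := Data4.main_cert
  refine ⟨n0, fun n hn => ?_⟩
  obtain ⟨A, hA, hc⟩ := h n hn
  refine ⟨A, hA, ?_⟩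
  have h1 : (2 : ℝ) ^ (3 * 179 * n) ≤ (A.card : ℝ) ^ 300 := by exact_mod_cast hc
  have h2 : ((2 : ℝ) ^ ((1.79 : ℝ) * n)) ^ 300 = (2 : ℝ) ^ (3 * 179 * n) := by
    rw [← Real.rpow_natCast, ← Real.rpow_mul (by norm_num), ← Real.rpow_natCast]
    congr 1
    push_cast
    ring
  rw [← h2] at h1
  exact le_of_pow_le_pow_left₀ (by norm_num) (by positivity) h1

/-- `2^{1.79} > 3.458` -/
lemma base : (3.458 : ℝ) ≤ (2 : ℝ) ^ (1.79 : ℝ) := by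
  have h : (3.458 : ℝ) ^ 100 ≤ ((2 : ℝ) ^ (1.79 : ℝ)) ^ 100 := by
    have : ((2 : ℝ) ^ (1.79 : ℝ)) ^ 100 = (2 : ℝ) ^ 179 := by
      rw [← Real.rpow_natCast, ← Real.rpow_mul (by norm_num), ← Real.rpow_natCast]
      congr 1
      norm_num
    rw [this]
    norm_num
  exact le_of_pow_le_pow_left₀ (by norm_num) (by positivity) h

/-- For all large `n` there is a corner-free `A ⊆ (F_2^n)^2` with
`|A| ≥ 4^{(1 - 0.105) n} = 2^{1.79 n} ≥ 3.458^n`. -/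
theorem result : ∃ n0 : ℕ, ∀ n : ℕ, n0 ≤ n →
    ∃ A : Finset ((Fin n → ZMod 2) × (Fin n → ZMod 2)), NoCorner A ∧
      (3.458 : ℝ) ^ n ≤ (4 : ℝ) ^ ((1 - 0.105 : ℝ) * n) ∧
      (4 : ℝ) ^ ((1 - 0.105 : ℝ) * n) ≤ A.card := by
  obtain ⟨n0, h⟩ := lower
  refine ⟨n0, fun n hn => ?_⟩
  obtain ⟨A, hA, hc⟩ := h n hn
  have h4 : (4 : ℝ) ^ ((1 - 0.105 : ℝ) * n) = (2 : ℝ) ^ ((1.79 : ℝ) * n) := by
    rw [show (4 : ℝ) = (2 : ℝ) ^ (2 : ℝ) by norm_num, ← Real.rpow_mul (by norm_num)]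
    congr 1
    ring
  rw [h4]
  refine ⟨A, hA, ?_, hc⟩
  rw [Real.rpow_mul (by norm_num), Real.rpow_natCast]
  exact pow_le_pow_left₀ (by norm_num) base n

end Pool.Agent.Results.MP_db4732_co.CornerFreeLower
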