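import Pool.Agent.H607R2.BW.CORN

/-!
# Corner-free sets of bounded width
-/

namespace Pool.Agent.Results.MP_db4732_co.SmallWidth

open Pool.Agent.H607R2.BW

theorem result :
  ∀ w : ℕ, ∃ L : ℕ, 0 < L ∧ ∀ (m : ℕ) (R : (Fin 2 → Str m) → Prop), HasWidth w R →
    (∀ x y z : Str m, R ![x, y] → R ![fun t => xor (x t) (z t), y] →
      R ![x, fun t => xor (y t) (z t)] → z = fun _ => false) →
    Nat.card {x : Fin 2 → Str m // R x} * 2 ^ (m / L) ≤ 4 ^ m := by
  exact t_CORN

end Pool.Agent.Results.MP_db4732_co.SmallWidth
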