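import Pool.Agent.H161R3.Corner3

/-!
# Corner-free sets in `(F_2^n)^2` have little periodic or algebraic structure
-/

namespace Pool.Agent.Results.MP_db4732_co.StructuredSets

open Module

/-- `F_2^n` -/
abbrev V (n : ℕ) := Fin n → ZMod 2

variable {n : ℕ}

/-- `A ⊆ (F_2^n)^2` contains no nontrivial corner `(x, y), (x, y + z), (x + z, y)`, `z ≠ 0`. -/
def CornerFree (A : Finset (V n × V n)) : Prop :=
  ∀ x y z : V n, z ≠ 0 → ¬ ((x, y) ∈ A ∧ (x, y + z) ∈ A ∧ (x + z, y) ∈ A)

/-- The cosets of `W` that contain more than `(2 / 3) |W|` points of `A`. -/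
def denseCosets (A : Finset (V n × V n)) (W : Submodule (ZMod 2) (V n × V n)) :
    Set ((V n × V n) ⧸ W) :=
  {q | 2 * Nat.card W < 3 * Nat.card {a // a ∈ A ∧ W.mkQ a = q}}

/-- `A + W = A` -/
def Periodic (A : Finset (V n × V n)) (W : Submodule (ZMod 2) (V n × V n)) : Prop :=
  ∀ a ∈ A, ∀ v ∈ W, a + v ∈ A

/-- All points of `(F_2^n)^2` at which `P` does not vanish lie in `A`. -/
def SupportedIn (P : MvPolynomial (Fin n ⊕ Fin n) (ZMod 2)) (A : Finset (V n × V n)) : Prop :=
  ∀ x y : V n, MvPolynomial.eval (Sum.elim x y) P ≠ 0 → (x, y) ∈ A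

/-- `exp (- w ^ 2 / (36 n))` -/
noncomputable def saving (n w : ℕ) : ℝ := Real.exp (-((w : ℝ) ^ 2 / (36 * n)))

/-- Let `A ⊆ (F_2^n)^2` be corner-free and `W` a subspace of `(F_2^n)^2` of dimension `w`.
(1) At most `3 * 2 ^ (2 n - w) * exp (- w ^ 2 / (36 n))` cosets of `W` contain more than
`(2 / 3) |W|` points of `A`.
(2) If `A + W = A`, then `|A| ≤ 3 * 4 ^ n * exp (- w ^ 2 / (36 n))`; so for every `ε > 0` the power
saving bound holds for all corner-free sets with at least `2 ^ (ε n)` periods.
(3) The only polynomial over `F_2` of degree less than `n / 2` in the `2 n` coordinates whose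
support is contained in `A` is zero (as a function); in particular the indicator function of a
nonempty corner-free set has degree at least `n / 2`. -/
theorem result (hn : 0 < n) (A : Finset (V n × V n)) (hA : CornerFree A) :
    (∀ W, (Nat.card (denseCosets A W) : ℝ) ≤
      3 * 2 ^ (2 * n - finrank (ZMod 2) W) * saving n (finrank (ZMod 2) W)) ∧
    (∀ W, Periodic A W → (A.card : ℝ) ≤ 3 * 4 ^ n * saving n (finrank (ZMod 2) W)) ∧
    (∀ P, 2 * P.totalDegree < n → SupportedIn P A →
      ∀ x y : V n, MvPolynomial.eval (Sum.elim x y) P = 0) := by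
  classical
  have hA' : Pool.Agent.H161R3.Corner.CornerFree A := fun x y z hz h1 h2 h3 =>
    hA x y z hz ⟨h1, h2, h3⟩
  refine ⟨fun W => ?_, fun W hW => ?_, fun P hP hs => ?_⟩
  · have hf : (denseCosets A W).Finite := Set.toFinite _
    have h1 : Nat.card (denseCosets A W) = hf.toFinset.card := Nat.card_eq_card_finite_toFinset hf
    rw [h1]
    refine Pool.Agent.H161R3.Corner.dense_cosets hn A hA' W _ (fun q hq => ?_)
    have h0 : q ∈ denseCosets A W := hf.mem_toFinset.1 hq
    have h : 2 * Nat.card W < 3 * Nat.card {a // a ∈ A ∧ W.mkQ a = q} := h0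
    have : Fintype W := Fintype.ofFinite _
    rwa [Nat.card_eq_fintype_card, Pool.Agent.H161R3.Corner.card_W] at h
  · exact Pool.Agent.H161R3.Corner.periodic hn A hA' W hW
  · exact Pool.Agent.H161R3.Corner.low_degree A hA' P hP hs

end Pool.Agent.Results.MP_db4732_co.StructuredSets
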